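import Pool.Agent.Run7.h565.LC.Stm8

/-!
# Project LC (MP_b817cf_pr): pieces SWP, MIX, LOU
-/

set_option autoImplicit false
set_option linter.unusedSectionVars false

namespace Run7.h824.LC

open Finset Equiv
open Run7.h565.LC
open Pool.Agent.TH268.PD (ret ret_spec)
open Pool.Agent.Y998.LP (NN NN_nonneg NN_one law_inv)
open Pool.Agent.Y998.CN (law_sum)
open Pool.Agent.Y998.ST (stirExp stirLaw law_nonneg)

section

variable {V : Type} [Fintype V] [DecidableEq V]

theorem sum_inv (J : V → V → ℝ) (t : ℝ) (s : Perm V) :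
    ∑ g, |stirLaw J t (s⁻¹ * g * s) - stirLaw J t g| ≤ 2 * NN J t s := by
  have h1 : ∑ g, |stirLaw J t (s⁻¹ * (g * s)) - stirLaw J t (g * s)| = NN J t s := by
    exact Equiv.sum_comp (Equiv.mulRight s) (fun g => |stirLaw J t (s⁻¹ * g) - stirLaw J t g|)
  have h2 : ∑ g, |stirLaw J t (g * s) - stirLaw J t g| = NN J t s := by
    unfold NN
    rw [← Equiv.sum_comp (Equiv.inv (Perm V)) (fun g => |stirLaw J t (s⁻¹ * g) - stirLaw J t g|)]
    refine Finset.sum_congr rfl fun g _ => ?_
    show _ = |stirLaw J t (s⁻¹ * g⁻¹) - stirLaw J t g⁻¹|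
    rw [← mul_inv_rev, law_inv, law_inv]
  calc ∑ g, |stirLaw J t (s⁻¹ * g * s) - stirLaw J t g|
      ≤ ∑ g, (|stirLaw J t (s⁻¹ * (g * s)) - stirLaw J t (g * s)| +
          |stirLaw J t (g * s) - stirLaw J t g|) := by
        refine Finset.sum_le_sum fun g _ => ?_
        have h3 := abs_add_le (stirLaw J t (s⁻¹ * (g * s)) - stirLaw J t (g * s))
          (stirLaw J t (g * s) - stirLaw J t g)
        rwa [sub_add_sub_cancel, ← mul_assoc] at h3
    _ = 2 * NN J t s := by rw [Finset.sum_add_distrib, h1, h2, two_mul]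

theorem rel_conj {k : ℕ} (s g : Perm V) (b : Fin k → V) :
    rel (s * g * s⁻¹) (fun j => s (b j)) = rel g b := by
  funext i j
  unfold rel
  rw [Equiv.Perm.sameCycle_conj]
  simp

theorem swap_comp {k : ℕ} (b : Fin k → V) (hb : Function.Injective b) (i : Fin k) (y : V)
    (hy : y ∉ Set.range b) : (fun j => swap (b i) y (b j)) = Function.update b i y := by
  funext j
  by_cases h : j = i
  · subst h
    simp
  · rw [Function.update_of_ne h]
    refine swap_apply_of_ne_of_ne (fun e => h (hb e)) fun e => hy ⟨j, e⟩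

theorem M_nonneg {k : ℕ} {Ψ : (Fin k → Fin k → Prop) → ℝ} {M : ℝ} (h : ∀ R, |Ψ R| ≤ M) : 0 ≤ M :=
  (abs_nonneg _).trans (h fun _ _ => True)

end

theorem t_SWP : S_SWP := by
  intro V _ _ J hJ t ht k b hb i y hy Ψ M hM
  have hM0 := M_nonneg hM
  set s : Perm V := swap (b i) y with hs
  have e0 : ∀ g : Perm V, rel g b = rel (s * g * s⁻¹) (Function.update b i y) := by
    intro g
    rw [← swap_comp b hb i y hy, ← hs, rel_conj]
  have e1 : stirExp J t (fun g => Ψ (rel g b)) =
      ∑ g, stirLaw J t (s⁻¹ * g * s) * Ψ (rel g (Function.update b i y)) := by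
    unfold stirExp
    rw [← Equiv.sum_comp (MulAut.conj s⁻¹).toEquiv]
    refine Finset.sum_congr rfl fun g _ => ?_
    have e2 : (MulAut.conj s⁻¹).toEquiv g = s⁻¹ * g * s := by
      show s⁻¹ * g * (s⁻¹)⁻¹ = _
      rw [inv_inv]
    rw [e2]
    beta_reduce
    rw [e0]
    congr 3
    group
  rw [e1]
  unfold stirExp
  rw [← Finset.sum_sub_distrib]
  refine (Finset.abs_sum_le_sum_abs _ _).trans ?_
  calc ∑ g, |stirLaw J t (s⁻¹ * g * s) * Ψ (rel g (Function.update b i y)) -
        stirLaw J t g * Ψ (rel g (Function.update b i y))|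
      ≤ ∑ g, M * |stirLaw J t (s⁻¹ * g * s) - stirLaw J t g| := by
        refine Finset.sum_le_sum fun g _ => ?_
        rw [← sub_mul, abs_mul, mul_comm]
        exact mul_le_mul_of_nonneg_right (hM _) (abs_nonneg _)
    _ = M * ∑ g, |stirLaw J t (s⁻¹ * g * s) - stirLaw J t g| := by rw [Finset.mul_sum]
    _ ≤ M * (2 * NN J t s) := mul_le_mul_of_nonneg_left (sum_inv J t s) hM0
    _ = 2 * M * NN J t s := by ring

section

variable {V : Type} [Fintype V] [DecidableEq V]

theorem stirExp_le {J : V → V → ℝ} (hJ : ∀ x y, 0 ≤ J x y) {t : ℝ} (ht : 0 ≤ t) {F : Perm V → ℝ}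
    {M : ℝ} (hF : ∀ g, |F g| ≤ M) : |stirExp J t F| ≤ M := by
  unfold stirExp
  refine (Finset.abs_sum_le_sum_abs _ _).trans ?_
  calc ∑ g, |stirLaw J t g * F g| ≤ ∑ g, stirLaw J t g * M := by
        refine Finset.sum_le_sum fun g _ => ?_
        rw [abs_mul, abs_of_nonneg (law_nonneg hJ ht g)]
        exact mul_le_mul_of_nonneg_left (hF g) (law_nonneg hJ ht g)
    _ = M := by rw [← Finset.sum_mul, law_sum, one_mul]

/-- tuples with a coordinate prescribed by the others -/
theorem count_coord {k : ℕ} (Q : Fin k → Finset V) (i : Fin k) (f : (Fin k → V) → V)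
    (hf : ∀ c v, f (Function.update c i v) = f c) :
    ((Fintype.piFinset Q).filter (fun c => c i = f c)).card * (Q i).card ≤
      (Fintype.piFinset Q).card := by
  classical
  rw [← Finset.card_product]
  refine Finset.card_le_card_of_injOn (fun p => Function.update p.1 i p.2) ?_ ?_
  · intro p hp
    rw [Finset.mem_coe, Finset.mem_product, Finset.mem_filter, Fintype.mem_piFinset] at hp
    rw [Finset.mem_coe, Fintype.mem_piFinset]
    intro j
    show Function.update p.1 i p.2 j ∈ Q j
    by_cases h : j = i
    · subst h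
      rw [Function.update_self]
      exact hp.2
    · rw [Function.update_of_ne h]
      exact hp.1.1 j
  · intro p hp q hq h
    rw [Finset.mem_coe, Finset.mem_product, Finset.mem_filter, Fintype.mem_piFinset] at hp hq
    beta_reduce at h
    have h1 : p.2 = q.2 := by
      have := congrFun h i
      rwa [Function.update_self, Function.update_self] at this
    have h2 : p.1 = q.1 := by
      funext j
      by_cases hj : j = i
      · subst hj
        rw [hp.1.2, hq.1.2, ← hf p.1 p.2, ← hf q.1 q.2, h]
      · have := congrFun h j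
        rwa [Function.update_of_ne hj, Function.update_of_ne hj] at this
    exact Prod.ext h2 h1

theorem count_coord' {k : ℕ} (Q : Fin k → Finset V) (ρ : ℕ) (hρ : 0 < ρ)
    (hQ : ∀ i, ρ ≤ (Q i).card) (i : Fin k) (f : (Fin k → V) → V)
    (hf : ∀ c v, f (Function.update c i v) = f c) :
    (((Fintype.piFinset Q).filter (fun c => c i = f c)).card : ℝ) ≤
      ((Fintype.piFinset Q).card : ℝ) / ρ := by
  have hρ' : (0 : ℝ) < ρ := by exact_mod_cast hρ
  rw [le_div_iff₀ hρ']
  have h := count_coord Q i f hf
  have h1 : ((Fintype.piFinset Q).filter (fun c => c i = f c)).card * ρ ≤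
      (Fintype.piFinset Q).card := (Nat.mul_le_mul_left _ (hQ i)).trans h
  exact_mod_cast h1

/-- the mean is close to a number if most terms are -/
theorem mean_close {ι : Type} (S B : Finset ι) (T : ι → ℝ) (a e M β : ℝ) (hS : 0 < S.card)
    (he : 0 ≤ e) (hM : 0 ≤ M) (hB : (B.card : ℝ) ≤ S.card * β)
    (h1 : ∀ x ∈ S, x ∉ B → |a - T x| ≤ e) (h2 : ∀ x ∈ S, |a - T x| ≤ 2 * M) :
    |a - (∑ x ∈ S, T x) / (S.card : ℝ)| ≤ e + 2 * M * β := by
  classical
  have hS' : (0 : ℝ) < S.card := by exact_mod_cast hS
  have e1 : a - (∑ x ∈ S, T x) / (S.card : ℝ) = (∑ x ∈ S, (a - T x)) / S.card := by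
    rw [Finset.sum_sub_distrib, Finset.sum_const, nsmul_eq_mul]
    field_simp
  rw [e1, abs_div, abs_of_pos hS', div_le_iff₀ hS']
  refine (Finset.abs_sum_le_sum_abs _ _).trans ?_
  calc ∑ x ∈ S, |a - T x| ≤ ∑ x ∈ S, (e + if x ∈ B then 2 * M else 0) := by
        refine Finset.sum_le_sum fun x hx => ?_
        split_ifs with h
        · linarith [h2 x hx]
        · linarith [h1 x hx h]
    _ = S.card * e + ∑ x ∈ S.filter (· ∈ B), 2 * M := by
        rw [Finset.sum_add_distrib, Finset.sum_const, nsmul_eq_mul, Finset.sum_filter]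
    _ = S.card * e + ((S.filter (· ∈ B)).card : ℝ) * (2 * M) := by
        rw [Finset.sum_const, nsmul_eq_mul]
    _ ≤ S.card * e + (S.card * β) * (2 * M) := by
        have h3 : ((S.filter (· ∈ B)).card : ℝ) ≤ B.card := by
          exact_mod_cast Finset.card_le_card (fun x hx => (Finset.mem_filter.1 hx).2)
        have : ((S.filter (· ∈ B)).card : ℝ) * (2 * M) ≤ (S.card * β) * (2 * M) :=
          mul_le_mul_of_nonneg_right (h3.trans hB) (by positivity)
        linarith
    _ = (e + 2 * M * β) * S.card := by ring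

end

theorem t_MIX : S_MIX := by
  intro V _ _ J hJ t ht k b hb Q ρ θ hρ hQ hθ hN Ψ M hM
  classical
  have hM0 := M_nonneg hM
  set T : (Fin k → V) → ℝ := fun c => stirExp J t (fun g => Ψ (rel g c)) with hT
  have hTM : ∀ c, |T c| ≤ M := fun c => stirExp_le hJ ht fun g => hM _
  have hρ' : (0 : ℝ) < ρ := by exact_mod_cast hρ
  -- good tuples
  have good : ∀ c ∈ Fintype.piFinset Q, (∀ i j, i ≠ j → c i ≠ b j) →
      (∀ i j, i ≠ j → c i ≠ c j) → |T b - T c| ≤ 2 * M * k * θ := by
    intro c hc h1 h2
    rw [Fintype.mem_piFinset] at hc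
    set a : ℕ → Fin k → V := fun m j => if (j : ℕ) < m then c j else b j with ha
    have hinj : ∀ m, Function.Injective (a m) := by
      intro m i j hij
      by_contra hne
      simp only [ha] at hij
      split_ifs at hij with p q q
      · exact h2 i j hne hij
      · exact h1 i j hne hij
      · exact h1 j i (Ne.symm hne) hij.symm
      · exact hne (hb hij)
    have hstep : ∀ m, m ≤ k → |T b - T (a m)| ≤ 2 * M * m * θ := by
      intro m
      induction m with
      | zero =>
        intro _
        have : a 0 = b := by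
          funext j
          simp [ha]
        rw [this]
        simp
      | succ m ih =>
        intro hm
        have ih' := ih (by omega)
        have hup : a (m + 1) = Function.update (a m) ⟨m, hm⟩ (c ⟨m, hm⟩) := by
          funext j
          by_cases hj : j = ⟨m, hm⟩
          · rw [hj, Function.update_self]
            simp [ha]
          · rw [Function.update_of_ne hj]
            have hj' : (j : ℕ) ≠ m := fun e => hj (Fin.ext e)
            simp only [ha]
            by_cases h3 : (j : ℕ) < m
            · rw [if_pos (by omega), if_pos h3]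
            · rw [if_neg (by omega), if_neg h3]
        have ham : a m ⟨m, hm⟩ = b ⟨m, hm⟩ := by simp [ha]
        have key : |T (a m) - T (a (m + 1))| ≤ 2 * M * θ := by
          by_cases hcb : c ⟨m, hm⟩ = b ⟨m, hm⟩
          · have : a (m + 1) = a m := by
              rw [hup, hcb, ← ham, Function.update_eq_self]
            rw [this, sub_self, abs_zero]
            positivity
          · have hy : c ⟨m, hm⟩ ∉ Set.range (a m) := by
              rintro ⟨j, hj⟩
              by_cases hj' : j = ⟨m, hm⟩
              · rw [hj', ham] at hj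
                exact hcb hj.symm
              · simp only [ha] at hj
                split_ifs at hj with h3
                · exact h2 _ _ hj' hj
                · exact h1 _ _ (Ne.symm hj') hj.symm
            have h4 := t_SWP V J hJ t ht k (a m) (hinj m) ⟨m, hm⟩ (c ⟨m, hm⟩) hy Ψ M hM
            rw [← hup, ham] at h4
            refine h4.trans ?_
            exact mul_le_mul_of_nonneg_left (hN _ _ (hc _)) (by positivity)
        have h5 := abs_add_le (T b - T (a m)) (T (a m) - T (a (m + 1)))
        rw [sub_add_sub_cancel] at h5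
        push_cast
        calc |T b - T (a (m + 1))| ≤ 2 * M * m * θ + 2 * M * θ := h5.trans (add_le_add ih' key)
          _ = 2 * M * (m + 1) * θ := by ring
    have hk : a k = c := by
      funext j
      simp [ha, j.2]
    rw [← hk]
    exact hstep k le_rfl
  -- bad tuples
  set B : Finset (Fin k → V) := (univ : Finset (Fin k × Fin k)).biUnion fun p =>
    if p.1 = p.2 then ∅ else
      (Fintype.piFinset Q).filter (fun c => c p.1 = b p.2) ∪
        (Fintype.piFinset Q).filter (fun c => c p.1 = c p.2) with hB
  have hBc : (B.card : ℝ) ≤ (Fintype.piFinset Q).card * (2 * (k : ℝ) ^ 2 / ρ) := by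
    have h1 : (B.card : ℝ) ≤ ∑ p : Fin k × Fin k, (((Fintype.piFinset Q).card : ℝ) / ρ +
        ((Fintype.piFinset Q).card : ℝ) / ρ) := by
      have h2 : (B.card : ℝ) ≤ ∑ p : Fin k × Fin k, (((if p.1 = p.2 then ∅ else
          (Fintype.piFinset Q).filter (fun c => c p.1 = b p.2) ∪
          (Fintype.piFinset Q).filter (fun c => c p.1 = c p.2) : Finset (Fin k → V)).card : ℕ) : ℝ) := by
        exact_mod_cast Finset.card_biUnion_le
      refine h2.trans (Finset.sum_le_sum fun p _ => ?_)
      split_ifs with h3
      · rw [Finset.card_empty]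
        push_cast
        positivity
      · have h4 : ((((Fintype.piFinset Q).filter (fun c => c p.1 = b p.2) ∪
            (Fintype.piFinset Q).filter (fun c => c p.1 = c p.2)).card : ℕ) : ℝ) ≤
            (((Fintype.piFinset Q).filter (fun c => c p.1 = b p.2)).card : ℝ) +
            (((Fintype.piFinset Q).filter (fun c => c p.1 = c p.2)).card : ℝ) := by
          exact_mod_cast Finset.card_union_le _ _
        refine h4.trans (add_le_add ?_ ?_)
        · exact count_coord' Q ρ hρ hQ p.1 (fun _ => b p.2) fun _ _ => rfl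
        · refine count_coord' Q ρ hρ hQ p.1 (fun c => c p.2) fun c v => ?_
          exact Function.update_of_ne (Ne.symm h3) _ _
    refine h1.trans (le_of_eq ?_)
    rw [Finset.sum_const, nsmul_eq_mul, Finset.card_univ, Fintype.card_prod, Fintype.card_fin]
    push_cast
    ring
  have hcard : ∏ i, ((Q i).card : ℝ) = ((Fintype.piFinset Q).card : ℝ) := by
    rw [Fintype.card_piFinset]
    push_cast
    rfl
  have hpos : 0 < (Fintype.piFinset Q).card := by
    rw [Fintype.card_piFinset]
    exact Finset.prod_pos fun i _ => hρ.trans_le (hQ i)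
  rw [hcard]
  have := mean_close (Fintype.piFinset Q) B T (T b) (2 * M * k * θ) M (2 * (k : ℝ) ^ 2 / ρ) hpos
    (by positivity) hM0 hBc (by
      intro c hc hcB
      refine good c hc ?_ ?_
      · intro i j hij he
        apply hcB
        rw [hB, Finset.mem_biUnion]
        refine ⟨(i, j), Finset.mem_univ _, ?_⟩
        rw [if_neg hij, Finset.mem_union, Finset.mem_filter]
        exact Or.inl ⟨hc, he⟩
      · intro i j hij he
        apply hcB
        rw [hB, Finset.mem_biUnion]
        refine ⟨(i, j), Finset.mem_univ _, ?_⟩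
        rw [if_neg hij, Finset.mem_union, Finset.mem_filter, Finset.mem_filter]
        exact Or.inr ⟨hc, he⟩) (by
      intro c _
      have h1 := hTM b
      have h2 := hTM c
      rw [abs_le] at h1 h2 ⊢
      constructor <;> linarith)
  refine this.trans (le_of_eq ?_)
  ring

theorem t_LOU : S_LOU := by
  intro V _ _ J hJ t ht k Q θ hQ hθ hN Ψ M hM
  classical
  have hM0 := M_nonneg hM
  set T : (Fin k → V) → ℝ := fun c => stirExp J t (fun g => Ψ (rel g c)) with hT
  have hTM : ∀ c, |T c| ≤ M := fun c => stirExp_le hJ ht fun g => hM _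
  have hu : |uni k Ψ| ≤ M := by
    unfold uni
    rw [abs_div, abs_of_pos (show (0 : ℝ) < (k.factorial : ℝ) by positivity),
      div_le_iff₀ (by positivity)]
    refine (Finset.abs_sum_le_sum_abs _ _).trans ?_
    calc ∑ π : Perm (Fin k), |Ψ (fun i j => π.SameCycle i j)| ≤ ∑ _π : Perm (Fin k), M :=
          Finset.sum_le_sum fun π _ => hM _
      _ = M * (k.factorial : ℝ) := by
          rw [Finset.sum_const, nsmul_eq_mul, Finset.card_univ, Fintype.card_perm,
            Fintype.card_fin, mul_comm]
  have good : ∀ c : Fin k → V, (∀ i, c i ∈ Q) → Function.Injective c →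
      |uni k Ψ - T c| ≤ k * M * θ := by
    intro c hc hinj
    have h1 := Pool.Agent.Y998.LQ.ind_mean J t c hinj θ hθ (fun i j => hN _ (hc i) _ (hc j))
      (fun π => Ψ (fun i j => π.SameCycle i j)) M hM0 (fun π => hM _)
    have e1 : ∑ g, stirLaw J t g * Ψ (fun i j => (ret k c g).SameCycle i j) = T c := by
      rw [hT]
      unfold stirExp
      refine Finset.sum_congr rfl fun g _ => ?_
      congr 2
      funext i j
      exact propext ((ret_spec k c hinj).2.2.2 g i j)
    rw [abs_sub_comm]
    rw [e1] at h1
    refine h1.trans (le_of_eq ?_)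
    ring
  set B : Finset (Fin k → V) := (univ : Finset (Fin k × Fin k)).biUnion fun p =>
    if p.1 = p.2 then ∅ else
      (Fintype.piFinset fun _ : Fin k => Q).filter (fun c => c p.1 = c p.2) with hB
  have hBc : (B.card : ℝ) ≤ (Fintype.piFinset fun _ : Fin k => Q).card * ((k : ℝ) ^ 2 / Q.card) := by
    have h1 : (B.card : ℝ) ≤ ∑ p : Fin k × Fin k,
        ((Fintype.piFinset fun _ : Fin k => Q).card : ℝ) / Q.card := by
      have h2 : (B.card : ℝ) ≤ ∑ p : Fin k × Fin k, (((if p.1 = p.2 then ∅ else
          (Fintype.piFinset fun _ : Fin k => Q).filter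
            (fun c => c p.1 = c p.2) : Finset (Fin k → V)).card : ℕ) : ℝ) := by
        exact_mod_cast Finset.card_biUnion_le
      refine h2.trans (Finset.sum_le_sum fun p _ => ?_)
      split_ifs with h3
      · rw [Finset.card_empty]
        push_cast
        positivity
      · refine count_coord' (fun _ : Fin k => Q) Q.card hQ (fun _ => le_rfl) p.1
          (fun c => c p.2) fun c v => ?_
        exact Function.update_of_ne (Ne.symm h3) _ _
    refine h1.trans (le_of_eq ?_)
    rw [Finset.sum_const, nsmul_eq_mul, Finset.card_univ, Fintype.card_prod, Fintype.card_fin]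
    push_cast
    ring
  have hcard : (Q.card : ℝ) ^ k = ((Fintype.piFinset fun _ : Fin k => Q).card : ℝ) := by
    rw [Fintype.card_piFinset]
    simp
  have hpos : 0 < (Fintype.piFinset fun _ : Fin k => Q).card := by
    rw [Fintype.card_piFinset]
    exact Finset.prod_pos fun i _ => hQ
  rw [hcard]
  have := mean_close (Fintype.piFinset fun _ : Fin k => Q) B T (uni k Ψ) (k * M * θ) M
    ((k : ℝ) ^ 2 / Q.card) hpos (by positivity) hM0 hBc (by
      intro c hc hcB
      refine good c (Fintype.mem_piFinset.1 hc) ?_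
      intro i j he
      by_contra hij
      apply hcB
      rw [hB, Finset.mem_biUnion]
      refine ⟨(i, j), Finset.mem_univ _, ?_⟩
      rw [if_neg hij, Finset.mem_filter]
      exact ⟨hc, he⟩) (by
      intro c _
      have h2 := hTM c
      rw [abs_le] at hu h2 ⊢
      constructor <;> linarith)
  rw [abs_sub_comm]
  refine this.trans (le_of_eq ?_)
  ring

end Run7.h824.LC
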